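import Pool.Agent.W147.LF.Stm2

/-! Project LF (owner helper147), part AV: avoiding residues. -/

set_option autoImplicit false

namespace Pool.Agent.W509.LF

open Polynomial Pool.Agent.W147.LF

theorem t_AV : S_AV := by
  intro K _ _ S g y hg hS
  classical
  by_contra hcon
  push Not at hcon
  choose τ hτ using fun j : ℕ => hcon (X ^ j)
  obtain ⟨j1, hj1, j2, hj2, hne, heq⟩ :=
    Finset.exists_ne_map_eq_of_card_lt_of_maps_to (s := Finset.range (S.card + 1)) (t := S)
      (by simp) (f := τ) (fun j _ => (hτ j).1)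
  have h1 := (hτ j1).2
  have h2 := (hτ j2).2
  rw [heq] at h1
  have h3 : g ∣ X ^ j1 - X ^ j2 := by
    have h4 := dvd_sub h1 h2
    have h5 : X ^ j1 + y (τ j2) - (X ^ j2 + y (τ j2)) = X ^ j1 - X ^ j2 := by ring
    rwa [h5] at h4
  have d1 : j1 < S.card + 1 := Finset.mem_range.1 hj1
  have d2 : j2 < S.card + 1 := Finset.mem_range.1 hj2
  have h6 : (X ^ j1 - X ^ j2 : K[X]).natDegree < g.natDegree := by
    have h7 := Polynomial.natDegree_sub_le (X ^ j1 : K[X]) (X ^ j2)
    rw [Polynomial.natDegree_X_pow, Polynomial.natDegree_X_pow] at h7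
    omega
  have h8 := Polynomial.eq_zero_of_dvd_of_natDegree_lt h3 h6
  have h9 : (X ^ j1 : K[X]) = X ^ j2 := sub_eq_zero.1 h8
  have h10 := congrArg Polynomial.natDegree h9
  rw [Polynomial.natDegree_X_pow, Polynomial.natDegree_X_pow] at h10
  exact hne h10

end Pool.Agent.W509.LF
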